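import Pool.Agent.N184.NG.Main

/-!
# The bound for all fibrations
-/

set_option autoImplicit false
set_option linter.unusedSectionVars false

open Filter Topology NumberField IsDedekindDomain Module
open Pool.Agent.H921R2.TatePole Pool.Agent.N184.QP

namespace Pool.Agent.N184.NG

section
variable {W : Type} [AddCommGroup W] [Module ℂ W] [FiniteDimensional ℂ W]

/-- eigenvalues on a quotient -/
lemma eig_quot {V₀ : Submodule ℂ W} (e : Module.End ℂ W) (he : V₀ ≤ V₀.comap e) (μ : ℂ)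
    (h : Module.End.HasEigenvalue (V₀.mapQ V₀ e he) μ) : e.HasEigenvalue μ := by
  have he' : V₀ ≤ V₀.comap (e - algebraMap ℂ (Module.End ℂ W) μ) := by
    intro v hv
    rw [Submodule.mem_comap, LinearMap.sub_apply, Module.algebraMap_end_apply]
    exact V₀.sub_mem (he hv) (V₀.smul_mem _ hv)
  have h1 := LinearMap.det_eq_det_mul_det V₀ (e - algebraMap ℂ (Module.End ℂ W) μ) he'
  have h2 : V₀.mapQ V₀ (e - algebraMap ℂ (Module.End ℂ W) μ) he' =
      V₀.mapQ V₀ e he - algebraMap ℂ (Module.End ℂ (W ⧸ V₀)) μ := by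
    refine LinearMap.ext fun x => ?_
    induction x using Submodule.Quotient.induction_on with
    | _ v =>
      rw [Submodule.mapQ_apply, LinearMap.sub_apply, LinearMap.sub_apply, Submodule.mapQ_apply,
        Module.algebraMap_end_apply, Module.algebraMap_end_apply]
      rfl
  have h3 : LinearMap.det (V₀.mapQ V₀ e he - algebraMap ℂ (Module.End ℂ (W ⧸ V₀)) μ) = 0 := by
    by_contra hcon
    rw [Module.End.hasEigenvalue_iff, Module.End.eigenspace_def] at h
    exact h ((LinearMap.isUnit_iff_ker_eq_bot _).mp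
      ((LinearMap.isUnit_iff_isUnit_det _).mpr (isUnit_iff_ne_zero.mpr hcon)))
  rw [h2, h3, mul_zero] at h1
  rw [Module.End.hasEigenvalue_iff, Module.End.eigenspace_def]
  intro hcon
  have h4 : IsUnit (LinearMap.det (e - algebraMap ℂ (Module.End ℂ W) μ)) := by
    rw [← LinearMap.isUnit_iff_isUnit_det]
    exact (LinearMap.isUnit_iff_ker_eq_bot _).mpr hcon
  rw [h1] at h4
  exact not_isUnit_zero h4

end

section
variable {W : Type} [AddCommGroup W] [Module ℂ W] [Module ℚ W] [FiniteDimensional ℂ W]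
  {k : Type} [Field k] [NumberField k] (f : Fibration k W)

lemma Fibration.norm_tr_le (C : CycleSpace f.ρ) {p : Nat.Primes} (hp : p ∉ f.S) :
    ‖LinearMap.trace ℂ (W ⧸ algPart C) (trPart C (f.frob p))‖ ≤ finrank ℂ (W ⧸ algPart C) := by
  refine norm_trace_le (F := trPart C (f.frob p)) fun μ h => ?_
  exact (f.pureW p hp μ (eig_quot (f.ρ (f.frob p)) (algPart_le C (f.frob p)) μ h)).le

/-- **The bound for all fibrations.** -/
theorem Fibration.bound_all (C : CycleSpace f.ρ) {ε : ℝ} (hε : 0 < ε) :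
    ∀ᶠ T : ℝ in atTop, ‖f.Sigma T / T + (finrank ℚ C.A : ℂ)‖ ≤
      finrank ℂ (W ⧸ algPart C) + ε := by
  classical
  set w : Nat.Primes → ℂ := fun p => if p ∈ f.S then 0 else
    LinearMap.trace ℂ (W ⧸ algPart C) (trPart C (f.frob p)) with hw
  set d : ℝ := (finrank ℂ (W ⧸ algPart C) : ℝ) with hd
  -- the sum without the transcendental part
  have h0 := ht_alg f C
  have h3 : HT (fun p => f.e0 p + LinearMap.trace ℂ W (f.ρ (f.frob p))) 0 := by
    obtain ⟨D, hD0, hD⟩ := f.e0_add
    exact HT.of_small _ hD0 hD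
  have h4 : HT (fun p => f.e0 p + w p) (-(finrank ℚ C.A : ℂ)) := by
    have h5 := h3.add (h0.smul (-1))
    rw [zero_add, neg_one_mul] at h5
    refine h5.congr f.S fun p hp => ?_
    rw [trace_split C, hw]
    simp only [if_neg hp]
    ring
  have h5 : Tendsto (fun N : ℕ => ((∑ v ∈ VU k N, f.s0 v * (Real.log (nm v) : ℝ)) + PS w N) / N)
      atTop (𝓝 (-(finrank ℚ C.A : ℂ))) := by
    have h6 := Tendsto.add h4 f.main_sum
    rw [add_zero] at h6
    refine h6.congr fun N => ?_
    have h7 : PS (fun p => f.e0 p + w p) N = PS f.e0 N + PS w N := by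
      unfold PS
      rw [← Finset.sum_add_distrib]
      refine Finset.sum_congr rfl fun p _ => ?_
      ring
    rw [h7, ← add_div]
    congr 1
    ring
  have h6 := (floor_iff (fun N => (∑ v ∈ VU k N, f.s0 v * (Real.log (nm v) : ℝ)) + PS w N) _).mpr h5
  -- the transcendental part
  have hd0 : 0 ≤ d := Nat.cast_nonneg _
  have h7 : ∀ N : ℕ, ‖PS w N‖ ≤ d * Chebyshev.theta N := by
    intro N
    unfold PS
    refine (norm_sum_le _ _).trans ?_
    rw [H332.PIT.theta_eq, ← sum_PU (fun n => Real.log n), Finset.mul_sum]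
    refine Finset.sum_le_sum fun p _ => ?_
    have hl := log_nonneg_nat (p : ℕ)
    rw [norm_mul, Complex.norm_real, Real.norm_eq_abs, abs_of_nonneg hl]
    refine mul_le_mul_of_nonneg_right ?_ hl
    rw [hw]
    by_cases hp : p ∈ f.S
    · simp only [if_pos hp, norm_zero]; exact hd0
    · simp only [if_neg hp]; exact f.norm_tr_le C hp
  have h8 : Tendsto (fun T : ℝ => d * (Chebyshev.theta (⌊T⌋₊ : ℕ) / T)) atTop (𝓝 (d * 1)) := by
    refine Tendsto.const_mul _ ?_
    have h9 := Pool.Agent.Helper923.PNT.theta_div_tendsto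
    refine h9.congr fun T => ?_
    congr 1
    rw [Chebyshev.theta_eq_theta_coe_floor]
  rw [mul_one] at h8
  have h9 : ∀ᶠ T : ℝ in atTop, d * (Chebyshev.theta (⌊T⌋₊ : ℕ) / T) < d + ε / 2 :=
    h8.eventually (gt_mem_nhds (by linarith))
  have h10 := (Metric.tendsto_nhds.mp h6) (ε / 2) (by linarith)
  filter_upwards [h9, h10, eventually_gt_atTop (0 : ℝ)] with T hT1 hT2 hT3
  rw [dist_eq_norm, sub_neg_eq_add] at hT2
  have hTc : (T : ℂ) ≠ 0 := by exact_mod_cast hT3.ne'
  have h11 : f.Sigma T / T + (finrank ℚ C.A : ℂ) =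
      (((∑ v ∈ VU k ⌊T⌋₊, f.s0 v * (Real.log (nm v) : ℝ)) + PS w ⌊T⌋₊) / T +
        (finrank ℚ C.A : ℂ)) - PS w ⌊T⌋₊ / T := by
    rw [f.Sigma_eq hT3.le, add_div]
    ring
  rw [h11]
  refine (norm_sub_le _ _).trans ?_
  have h12 : ‖PS w ⌊T⌋₊ / (T : ℂ)‖ ≤ d * (Chebyshev.theta (⌊T⌋₊ : ℕ) / T) := by
    rw [norm_div, Complex.norm_real, Real.norm_eq_abs, abs_of_pos hT3, ← mul_div_assoc]
    exact div_le_div_of_nonneg_right (h7 _) hT3.le
  linarith

end

end Pool.Agent.N184.NG
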