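import Pool.Agent.N184.QP.NagDefs

/-!
# Fibrations over number fields and averages of traces of Frobenius in degree one: definitions

Let `k` be a number field and `f : X → Y` a flat proper morphism of connected smooth projective varieties
over `k` with geometrically irreducible generic fibre, `m = dim Y`; let `B` be the trace of the Picard
variety of the generic fibre.
We fix an isomorphism of an algebraic closure of `ℚ_l` with `ℂ`.
-/

set_option autoImplicit false

open NumberField Module Filter Topology IsDedekindDomain
open Pool.Agent.H921R2.TatePole (nm)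
open Pool.Agent.N184.QP

namespace Pool.Agent.N184.NG

/-- A fibration `f : X → Y` over the number field `k`, `m = dim Y`, and the traces of Frobenius in the
cohomology of degree `1`.

* `R` is the finite set of bad primes. For a prime `v` of `k` the set `Pt v` consists of the points
  of the reduction of `Y` over the residue field of `v`, `a v y` is the trace of Frobenius on the
  cohomology of degree `1` of the fibre over `y`, and `aB v` is the trace of Frobenius on the
  cohomology of degree `1` of `B`. The bound is the theorem of Deligne, `nm v` being the norm of `v`: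
  the sum of the `a v y` is the trace of Frobenius on the cohomology with compact supports of
  `R¹ f_* ℚ_l` on the open part `U` of `Y` over which `f` is smooth, up to `O((nm v) ^ (m - 1 / 2))`,
  the group in degree `2 m` is `H¹(B)(-m)`, and the other groups have weights at most `2 m`;
* `W` is the part of weight `0` of `H¹(U ⊗ ℚ̄, R¹ f_* ℚ_l (1))`, with coefficients `ℂ`, where `U` is
  considered as a scheme over `ℚ`, with the action `ρ` of the absolute Galois group of `ℚ`. It is the
  sum of these spaces over the embeddings of `k` in `ℚ̄`. It is unramified outside the finite set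
  `S`, and the eigenvalues of Frobenius elements have absolute value `1`;
* `trace` is the trace formula of Grothendieck for the sheaf `R¹ f_* ℚ_l` on `U` modulo `p`, for `p`
  outside of `S`, with the bounds of Deligne: the points `y` over the primes `v` of norm `p` are the
  points of `Y` over the field with `p` elements, the group of degree `2 m` gives the terms `aB v`,
  the part of weight `2 m` of the group of degree `2 m - 1` is dual to `W (m)`, so the geometric
  Frobenius has there the trace `p ^ m` times the trace of the arithmetic Frobenius `frob p` on `W`,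
  and all the other weights are at most `2 m - 1`. -/
structure Fibration (k : Type) [Field k] [NumberField k] (W : Type) [AddCommGroup W]
    [Module ℂ W] where
  m : ℕ
  R : Finset (HeightOneSpectrum (𝓞 k))
  Pt : HeightOneSpectrum (𝓞 k) → Type
  fin : ∀ v, Fintype (Pt v)
  a : ∀ v, Pt v → ℂ
  aB : HeightOneSpectrum (𝓞 k) → ℂ
  bound : ∃ C : ℝ, ∀ v, v ∉ R →
    ‖(∑ y ∈ (fin v).elems, a v y) - (nm v : ℂ) ^ m * aB v‖ ≤ C * (nm v : ℝ) ^ m
  ρ : Representation ℂ GalQ W
  S : Finset Nat.Primes
  frob : Nat.Primes → GalQ
  isFrob : ∀ p, p ∉ S → IsFrob p (frob p)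
  pureW : ∀ p, p ∉ S → ∀ μ : ℂ, Module.End.HasEigenvalue (ρ (frob p)) μ → ‖μ‖ = 1
  trace : ∃ C : ℝ, ∀ p, p ∉ S →
    ‖(∑ᶠ (v : HeightOneSpectrum (𝓞 k)) (_ : nm v = (p : ℕ)),
        ((∑ y ∈ (fin v).elems, a v y) - ((p : ℕ) : ℂ) ^ m * aB v)) +
      ((p : ℕ) : ℂ) ^ m * LinearMap.trace ℂ W (ρ (frob p))‖ ≤
        C * ((p : ℕ) : ℝ) ^ ((m : ℝ) - 1 / 2)

variable {k : Type} [Field k] [NumberField k] {W : Type} [AddCommGroup W] [Module ℂ W]

/-- The average `𝔄*_v(X) = 𝔄_v(X) - a_v(B)` of the traces of Frobenius on the cohomology of degree `1`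
of the fibres. -/
noncomputable def Fibration.star (f : Fibration k W) (v : HeightOneSpectrum (𝓞 k)) : ℂ :=
  ((nm v : ℂ) ^ f.m)⁻¹ * (∑ y ∈ (f.fin v).elems, f.a v y) - f.aB v

/-- `Σ_T(𝔄*)`: the sum of `𝔄*_v(X) log (nm v)` over the primes `v` outside of `R` with `nm v ≤ T`. -/
noncomputable def Fibration.Sigma (f : Fibration k W) (T : ℝ) : ℂ :=
  ∑ᶠ (v : HeightOneSpectrum (𝓞 k)) (_ : v ∉ f.R ∧ (nm v : ℝ) ≤ T),
    f.star v * (Real.log (nm v) : ℝ)

/-- The sum of `c(p) log p` over the prime numbers `p ≤ T` outside of the finite set `S`. -/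
noncomputable def primeSum (S : Finset Nat.Primes) (c : Nat.Primes → ℂ) (T : ℝ) : ℂ :=
  ∑ᶠ (p : Nat.Primes) (_ : p ∉ S ∧ ((p : ℕ) : ℝ) ≤ T), c p * (Real.log ((p : ℕ) : ℝ) : ℝ)

/-- The function `F(T) / T` tends to `c` for `T → ∞`. -/
def HasMean (F : ℝ → ℂ) (c : ℂ) : Prop := Tendsto (fun T : ℝ => F T / T) atTop (𝓝 c)

variable [Module ℚ W]

/-- The algebraic part of `W`: the complex subspace spanned by the classes in `W₀`. -/
def algPart {ρ : Representation ℂ GalQ W} (C : CycleSpace ρ) : Submodule ℂ W :=
  Submodule.span ℂ (C.W₀ : Set W)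

lemma algPart_le {ρ : Representation ℂ GalQ W} (C : CycleSpace ρ) (γ : GalQ) :
    algPart C ≤ (algPart C).comap (ρ γ) := by
  unfold algPart
  rw [Submodule.span_le]
  intro w hw
  exact Submodule.subset_span (C.stable γ w hw)

/-- The transcendental part: the representation on the quotient of `W` by its algebraic part. -/
noncomputable def trPart {ρ : Representation ℂ GalQ W} (C : CycleSpace ρ) :
    Representation ℂ GalQ (W ⧸ algPart C) :=
  ρ.quotient (algPart C) (algPart_le C)

end Pool.Agent.N184.NG
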