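import Pool.Agent.N184.NG.Sig

/-!
# The algebraic part
-/

set_option autoImplicit false
set_option linter.unusedSectionVars false

open Filter Topology NumberField IsDedekindDomain Module
open Pool.Agent.H921R2.TatePole Pool.Agent.N184.QP

namespace Pool.Agent.N184.NG

section
variable {K V : Type*} [Field K] [AddCommGroup V] [Module K V] [FiniteDimensional K V]

open Module.Basis in
/-- traces and quotients -/
theorem trace_eq_add (W : Submodule K V) (e : V →ₗ[K] V) (he : W ≤ W.comap e) :
    LinearMap.trace K V e = LinearMap.trace K W (e.restrict he) +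
      LinearMap.trace K (V ⧸ W) (W.mapQ W e he) := by
  classical
  let m := Module.Free.ChooseBasisIndex K W
  let bW : Basis m K W := Module.Free.chooseBasis K W
  let n := Module.Free.ChooseBasisIndex K (V ⧸ W)
  let bQ : Basis n K (V ⧸ W) := Module.Free.chooseBasis K (V ⧸ W)
  let b := sumQuot bW bQ
  rw [LinearMap.trace_eq_matrix_trace K b, LinearMap.trace_eq_matrix_trace K bW,
    LinearMap.trace_eq_matrix_trace K bQ, Matrix.trace, Matrix.trace, Matrix.trace,
    Fintype.sum_sum_type]
  congr 1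
  · refine Finset.sum_congr rfl fun i _ => ?_
    simp only [b, Matrix.diag_apply, sumQuot_inl, LinearMap.toMatrix_apply]
    apply sumQuot_repr_inl_of_mem
  · refine Finset.sum_congr rfl fun j _ => ?_
    simp only [Matrix.diag_apply, LinearMap.toMatrix_apply, sumQuot_repr_inr, b]
    rw [← sumQuot_inr bW bQ j, W.mapQ_apply]
    simp

end

section
variable {W : Type} [AddCommGroup W] [Module ℂ W] [Module ℚ W] [FiniteDimensional ℂ W]

/-- the algebraic part -/
noncomputable def alg {ρ : Representation ℂ GalQ W} (C : CycleSpace ρ) :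
    Representation ℂ GalQ (algPart C) :=
  ρ.subrepresentation (algPart C) (algPart_le C)

lemma trace_split {ρ : Representation ℂ GalQ W} (C : CycleSpace ρ) (γ : GalQ) :
    LinearMap.trace ℂ W (ρ γ) = LinearMap.trace ℂ (algPart C) (alg C γ) +
      LinearMap.trace ℂ (W ⧸ algPart C) (trPart C γ) :=
  trace_eq_add (algPart C) (ρ γ) (algPart_le C γ)

/-- the Artin representation on the algebraic part -/
theorem alg_data {ρ : Representation ℂ GalQ W} (C : CycleSpace ρ) :
    ∃ (L : Type) (_ : Field L) (_ : NumberField L) (_ : IsGalois ℚ L)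
      (res : GalQ →* Gal(L/ℚ)) (f : Gal(L/ℚ) → ℚ),
      (∀ p σ, IsFrob p σ → IsFrobIn p (res σ)) ∧
      (∀ g h, Subgroup.zpowers g = Subgroup.zpowers h → f g = f h) ∧
      (∀ g σ, f (σ⁻¹ * g * σ) = f g) ∧
      (∀ γ : GalQ, LinearMap.trace ℂ (algPart C) (alg C γ) = (f (res γ) : ℂ)) ∧
      mean f = finrank ℚ C.A ∧ FiniteDimensional ℚ C.A := by
  classical
  have hcast : ∀ (q : ℚ) (w : W), (q : ℂ) • w = q • w := fun q w => Rat.cast_smul_eq_qsmul ℂ q w
  let ι : algPart C →ₗ[ℚ] W := (algPart C).subtype.restrictScalars ℚ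
  have hι : ∀ u, ι u = (u : W) := fun u => rfl
  have hιinj : Function.Injective ι := fun u v h => Subtype.ext h
  have hsub : ∀ w ∈ C.W₀, w ∈ algPart C := fun w hw => Submodule.subset_span hw
  have halg : ∀ γ (u : algPart C), ((alg C γ u : algPart C) : W) = ρ γ u := fun γ u => rfl
  have hspan : Submodule.span ℂ ((C.W₀.comap ι : Submodule ℚ (algPart C)) : Set (algPart C)) = ⊤ := by
    have h := Submodule.span_span_coe_preimage (R := ℂ) (s := (C.W₀ : Set W))
    exact h
  have hAle : ∀ w ∈ C.A, w ∈ C.W₀ := fun w hw => ((C.mem_A w).mp hw).1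
  obtain ⟨L, i1, i2, i3, res, g, h1, h2, h3, h4, h5, h6, h7⟩ :=
    rep_data (alg C) (C.W₀.comap ι) (C.A.comap ι)
      (fun γ u hu => C.stable γ u hu)
      (fun u hu => by
        obtain ⟨L, hL, h⟩ := C.finite (ι u) hu
        exact ⟨L, hL, fun γ hγ => Subtype.ext (h γ hγ)⟩)
      (fun n w hw hli => by
        have h1 : LinearIndependent ℚ (fun j => ι (w j)) :=
          hli.map' ι (LinearMap.ker_eq_bot.mpr hιinj)
        have h2 := C.indep n (fun j => ι (w j)) hw h1
        exact LinearIndependent.of_comp (algPart C).subtype h2)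
      (fun u => by
        constructor
        · intro hu
          have h := (C.mem_A (ι u)).mp hu
          exact ⟨h.1, fun γ => Subtype.ext (h.2 γ)⟩
        · rintro ⟨hu1, hu2⟩
          exact (C.mem_A (ι u)).mpr ⟨hu1, fun γ => congrArg Subtype.val (hu2 γ)⟩)
      hspan
  have e : (C.A.comap ι : Submodule ℚ (algPart C)) ≃ₗ[ℚ] C.A :=
    { toFun := fun u => ⟨ι u.1, u.2⟩
      invFun := fun w => ⟨⟨w.1, hsub _ (hAle _ w.2)⟩, w.2⟩
      left_inv := fun u => rfl
      right_inv := fun w => rfl
      map_add' := fun u v => rfl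
      map_smul' := fun q u => rfl }
  refine ⟨L, i1, i2, i3, res, g, h1, h2, h3, h4, ?_, ?_⟩
  · rw [h5, e.finrank_eq]
  · exact e.finiteDimensional

variable {k : Type} [Field k] [NumberField k] (f : Fibration k W)

/-- the algebraic part contributes its rank -/
theorem ht_alg (C : CycleSpace f.ρ) :
    HT (fun p => LinearMap.trace ℂ (algPart C) (alg C (f.frob p))) (finrank ℚ C.A) := by
  classical
  obtain ⟨L, _, _, _, res, g, hfrob, hg, hgc, htr, hmean, hfin⟩ := alg_data C
  have hl := ht_class (fun p => res (f.frob p)) f.S (fun p hp => hfrob p _ (f.isFrob p hp)) g hg hgc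
  rw [hmean] at hl
  have h1 : ((finrank ℚ C.A : ℚ) : ℂ) = (finrank ℚ C.A : ℂ) := by push_cast; rfl
  rw [h1] at hl
  refine hl.congr ∅ fun p _ => ?_
  rw [htr]

/-- **The transcendental part.** -/
theorem Fibration.hasMean_tr (C : CycleSpace f.ρ) (c : ℂ) :
    HasMean f.Sigma (-(finrank ℚ C.A + c)) ↔
      HasMean (primeSum f.S fun p => LinearMap.trace ℂ (W ⧸ algPart C) (trPart C (f.frob p))) c := by
  rw [f.hasMean_iff, hasMean_primeSum, hasMean_primeSum]
  have h0 := ht_alg f C
  constructor
  · intro h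
    have h4 := h.add (h0.smul (-1))
    have h5 : (finrank ℚ C.A + c : ℂ) + -1 * (finrank ℚ C.A : ℂ) = c := by ring
    rw [h5] at h4
    convert h4 using 2
    rw [trace_split C]
    ring
  · intro h
    have h4 := h0.add h
    convert h4 using 2
    rw [trace_split C]

theorem Fibration.hasMean_rank (C : CycleSpace f.ρ) :
    HasMean f.Sigma (-(finrank ℚ C.A : ℂ)) ↔
      HasMean (primeSum f.S fun p => LinearMap.trace ℂ (W ⧸ algPart C) (trPart C (f.frob p))) 0 := by
  rw [← f.hasMean_tr C 0, add_zero]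

theorem Fibration.hasMean_alg (C : CycleSpace f.ρ) (h : algPart C = ⊤) :
    HasMean f.Sigma (-(finrank ℚ C.A : ℂ)) ∧ finrank ℚ C.A = finrank ℂ f.ρ.invariants := by
  constructor
  · rw [f.hasMean_rank C, hasMean_primeSum]
    refine HT.zero.congr ∅ fun p _ => ?_
    have : Subsingleton (W ⧸ algPart C) := Submodule.Quotient.subsingleton_iff.mpr h
    have h1 : trPart C (f.frob p) = 0 := by
      refine LinearMap.ext fun x => Subsingleton.elim _ _
    rw [h1, map_zero]
  · obtain ⟨L, _, _, _, res, g, hfrob, hg, hgc, htr, hmean, hdim, hfin⟩ :=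
      rep_data f.ρ C.W₀ C.A C.stable C.finite C.indep C.mem_A h
    exact hdim.symm

end

/-- fibrations with the same transcendental traces -/
theorem hasMean_congr {k : Type} [Field k] [NumberField k] {W : Type} [AddCommGroup W]
    [Module ℂ W] [Module ℚ W] [FiniteDimensional ℂ W] (f : Fibration k W) (C : CycleSpace f.ρ)
    {k' : Type} [Field k'] [NumberField k'] {W' : Type} [AddCommGroup W'] [Module ℂ W']
    [Module ℚ W'] [FiniteDimensional ℂ W'] (f' : Fibration k' W') (C' : CycleSpace f'.ρ)
    (T : Finset Nat.Primes) (h : ∀ p, p ∉ T → p ∉ f.S → p ∉ f'.S →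
      LinearMap.trace ℂ (W ⧸ algPart C) (trPart C (f.frob p)) =
        LinearMap.trace ℂ (W' ⧸ algPart C') (trPart C' (f'.frob p))) :
    HasMean f.Sigma (-(finrank ℚ C.A : ℂ)) ↔ HasMean f'.Sigma (-(finrank ℚ C'.A : ℂ)) := by
  classical
  rw [f.hasMean_rank C, f'.hasMean_rank C', hasMean_primeSum, hasMean_primeSum]
  constructor
  · intro h1
    refine h1.congr (T ∪ f.S ∪ f'.S) fun p hp => ?_
    simp only [Finset.mem_union, not_or] at hp
    exact (h p hp.1.1 hp.1.2 hp.2).symm
  · intro h1
    refine h1.congr (T ∪ f.S ∪ f'.S) fun p hp => ?_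
    simp only [Finset.mem_union, not_or] at hp
    exact h p hp.1.1 hp.1.2 hp.2

end Pool.Agent.N184.NG
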