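import Pool.Agent.N184.NG.Tau

/-!
# Sums over the primes of a number field
-/

set_option autoImplicit false
set_option linter.unusedSectionVars false

open Filter Topology NumberField IsDedekindDomain Module
open Pool.Agent.H921R2.TatePole Pool.Agent.N184.QP

namespace Pool.Agent.N184.NG

section
variable {k : Type} [Field k] [NumberField k]

open Classical in
/-- the primes of `k` above `p` -/
noncomputable def fib (k : Type) [Field k] [NumberField k] (p : Nat.Primes) :
    Finset (HeightOneSpectrum (𝓞 k)) :=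
  (Finset.univ : Finset {v : HeightOneSpectrum (𝓞 k) // below v = p}).map
    (Function.Embedding.subtype _)

lemma mem_fib {p : Nat.Primes} {v : HeightOneSpectrum (𝓞 k)} : v ∈ fib k p ↔ below v = p := by
  classical
  unfold fib
  simp only [Finset.mem_map, Finset.mem_univ, true_and, Function.Embedding.subtype_apply]
  constructor
  · rintro ⟨⟨w, hw⟩, rfl⟩; exact hw
  · intro h; exact ⟨⟨v, h⟩, rfl⟩

lemma card_fib (p : Nat.Primes) : (fib k p).card ≤ Module.finrank ℚ k := by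
  classical
  unfold fib
  rw [Finset.card_map, Finset.card_univ]
  exact fiber_card_le p

lemma sum_fib (p : Nat.Primes) (g : HeightOneSpectrum (𝓞 k) → ℂ) :
    ∑ v ∈ fib k p, g v = ∑ v : {v : HeightOneSpectrum (𝓞 k) // below v = p}, g v.1 := by
  classical
  unfold fib
  rw [Finset.sum_map]
  rfl

lemma below_le (v : HeightOneSpectrum (𝓞 k)) : ((below v : Nat.Primes) : ℕ) ^ deg v = nm v :=
  (nm_eq v).1.symm

lemma below_le_nm (v : HeightOneSpectrum (𝓞 k)) : ((below v : Nat.Primes) : ℕ) ≤ nm v := by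
  have h : ((below v : Nat.Primes) : ℕ) ∣ nm v := by
    rw [← below_le v]
    refine dvd_pow_self _ ?_
    have h2 := (nm_eq v).2.1
    omega
  exact Nat.le_of_dvd (nm_pos v) h

open Classical in
/-- the primes of norm at most `N` -/
noncomputable def VU (k : Type) [Field k] [NumberField k] (N : ℕ) :
    Finset (HeightOneSpectrum (𝓞 k)) :=
  ((PU N).biUnion (fib k)).filter fun v => nm v ≤ N

lemma mem_VU {N : ℕ} {v : HeightOneSpectrum (𝓞 k)} : v ∈ VU k N ↔ nm v ≤ N := by
  classical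
  unfold VU
  rw [Finset.mem_filter, Finset.mem_biUnion]
  constructor
  · exact fun h => h.2
  · intro h
    exact ⟨⟨below v, mem_PU.mpr ((below_le_nm v).trans h), mem_fib.mpr rfl⟩, h⟩

/-- the primes of degree one -/
lemma sum_deg_one (g : HeightOneSpectrum (𝓞 k) → ℂ) (N : ℕ) :
    ∑ v ∈ (VU k N).filter (fun v => deg v = 1), g v =
      ∑ p ∈ PU N, ∑ v : {v : HeightOneSpectrum (𝓞 k) // below v = p},
        if deg v.1 = 1 then g v.1 else 0 := by
  classical
  have hm : ∀ v ∈ (VU k N).filter (fun v => deg v = 1), below v ∈ PU N := by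
    intro v hv
    rw [Finset.mem_filter, mem_VU] at hv
    exact mem_PU.mpr ((below_le_nm v).trans hv.1)
  rw [← Finset.sum_fiberwise_of_maps_to hm]
  refine Finset.sum_congr rfl fun p hp => ?_
  rw [← sum_fib p (fun v => if deg v = 1 then g v else 0), ← Finset.sum_filter]
  refine Finset.sum_congr ?_ fun _ _ => rfl
  ext v
  simp only [Finset.mem_filter, mem_VU, mem_fib]
  constructor
  · rintro ⟨⟨_, h2⟩, h3⟩; exact ⟨h3, h2⟩
  · rintro ⟨h3, h2⟩
    refine ⟨⟨?_, h2⟩, h3⟩
    have h4 := below_le v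
    rw [h2, pow_one, h3] at h4
    rw [← h4]
    exact mem_PU.mp hp

/-- the number of primes of degree at least two -/
lemma card_deg_two (N : ℕ) :
    (((VU k N).filter (fun v => deg v ≠ 1)).card : ℝ) ≤
      Module.finrank ℚ k * (Real.sqrt N + 1) := by
  classical
  have hm : ∀ v ∈ (VU k N).filter (fun v => deg v ≠ 1), below v ∈ PU (Nat.sqrt N) := by
    intro v hv
    rw [Finset.mem_filter, mem_VU] at hv
    rw [mem_PU, Nat.le_sqrt']
    have h1 := (nm_eq v).2.1
    have h2 : 2 ≤ deg v := by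
      have := hv.2
      omega
    calc ((below v : Nat.Primes) : ℕ) ^ 2 ≤ ((below v : Nat.Primes) : ℕ) ^ deg v :=
          Nat.pow_le_pow_right (below v).prop.pos h2
      _ = nm v := below_le v
      _ ≤ N := hv.1
  have h1 := Finset.card_le_mul_card_image_of_maps_to hm (Module.finrank ℚ k) (fun p _ => by
    refine le_trans (Finset.card_le_card ?_) (card_fib (k := k) p)
    intro v hv
    rw [Finset.mem_filter] at hv
    exact mem_fib.mpr hv.2)
  have h2 : (PU (Nat.sqrt N)).card ≤ Nat.sqrt N + 1 := by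
    have h3 := Finset.card_subtype Nat.Prime (Finset.range (Nat.sqrt N + 1))
    have h4 : (PU (Nat.sqrt N)).card =
        ((Finset.range (Nat.sqrt N + 1)).filter Nat.Prime).card := h3
    rw [h4]
    refine (Finset.card_filter_le _ _).trans ?_
    rw [Finset.card_range]
  calc (((VU k N).filter (fun v => deg v ≠ 1)).card : ℝ)
      ≤ ((Module.finrank ℚ k * (PU (Nat.sqrt N)).card : ℕ) : ℝ) := by exact_mod_cast h1
    _ = Module.finrank ℚ k * ((PU (Nat.sqrt N)).card : ℝ) := by push_cast; rfl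
    _ ≤ Module.finrank ℚ k * (Real.sqrt N + 1) := by
        refine mul_le_mul_of_nonneg_left ?_ (Nat.cast_nonneg _)
        have h5 : ((PU (Nat.sqrt N)).card : ℝ) ≤ (Nat.sqrt N : ℝ) + 1 := by exact_mod_cast h2
        have h6 : (Nat.sqrt N : ℝ) ≤ Real.sqrt N := Real.nat_sqrt_le_real_sqrt
        linarith

lemma tendsto_aux (C : ℝ) :
    Tendsto (fun N : ℕ => C * Real.log N * (Real.sqrt N + 1) / N) atTop (𝓝 0) := by
  have h1 : Tendsto (fun n : ℕ => |C| * 8 * (n : ℝ) ^ (-(1 / 4 : ℝ))) atTop (𝓝 0) := by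
    have h1 : Tendsto (fun x : ℝ => x ^ (-(1 / 4 : ℝ))) atTop (𝓝 0) :=
      tendsto_rpow_neg_atTop (by norm_num)
    have h2 := (h1.comp tendsto_natCast_atTop_atTop).const_mul (|C| * 8)
    simpa using h2
  refine squeeze_zero_norm' ?_ h1
  filter_upwards [eventually_ge_atTop 1] with N hN
  have hN1 : (1 : ℝ) ≤ N := by exact_mod_cast hN
  have hN0 : (0 : ℝ) < N := by linarith
  have hl : 0 ≤ Real.log (N : ℝ) := log_nonneg_nat N
  have hl2 := Real.log_le_rpow_div hN0.le (show (0 : ℝ) < 1 / 4 by norm_num)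
  have hs : Real.sqrt N + 1 ≤ 2 * (N : ℝ) ^ (1 / 2 : ℝ) := by
    rw [← Real.sqrt_eq_rpow]
    have : (1 : ℝ) ≤ Real.sqrt N := Real.one_le_sqrt.mpr hN1
    linarith
  have hs0 : 0 ≤ Real.sqrt N + 1 := by positivity
  rw [norm_div, norm_mul, norm_mul, Real.norm_eq_abs, Real.norm_eq_abs, Real.norm_eq_abs,
    Real.norm_eq_abs, abs_of_nonneg hl, abs_of_nonneg hs0, abs_of_pos hN0]
  calc |C| * Real.log N * (Real.sqrt N + 1) / N
      ≤ |C| * ((N : ℝ) ^ (1 / 4 : ℝ) / (1 / 4)) * (2 * (N : ℝ) ^ (1 / 2 : ℝ)) / N := by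
        refine div_le_div_of_nonneg_right ?_ hN0.le
        refine mul_le_mul (mul_le_mul_of_nonneg_left hl2 (abs_nonneg _)) hs hs0 (by positivity)
    _ = |C| * 8 * (((N : ℝ) ^ (1 / 4 : ℝ) * (N : ℝ) ^ (1 / 2 : ℝ)) * (N : ℝ)⁻¹) := by
        rw [div_eq_mul_inv]
        ring
    _ = |C| * 8 * (N : ℝ) ^ (-(1 / 4 : ℝ)) := by
        rw [← Real.rpow_neg_one, ← Real.rpow_add hN0, ← Real.rpow_add hN0]
        norm_num

end

section
variable {k : Type} [Field k] [NumberField k] {W : Type} [AddCommGroup W] [Module ℂ W]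
  (f : Fibration k W)

open Classical in
/-- the averages, `0` at the bad primes -/
noncomputable def Fibration.s0 (v : HeightOneSpectrum (𝓞 k)) : ℂ :=
  if v ∈ f.R then 0 else f.star v

/-- the sum of the averages over the primes of norm `p` -/
noncomputable def Fibration.e0 (p : Nat.Primes) : ℂ :=
  ∑ v : {v : HeightOneSpectrum (𝓞 k) // below v = p}, if deg v.1 = 1 then f.s0 v.1 else 0

lemma Fibration.star_eq (v : HeightOneSpectrum (𝓞 k)) :
    f.star v = ((nm v : ℂ) ^ f.m)⁻¹ *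
      ((∑ y ∈ (f.fin v).elems, f.a v y) - (nm v : ℂ) ^ f.m * f.aB v) := by
  have hne : (nm v : ℂ) ^ f.m ≠ 0 := pow_ne_zero _ (by exact_mod_cast nm_ne_zero v)
  unfold Fibration.star
  rw [mul_sub, inv_mul_cancel_left₀ hne]

lemma Fibration.norm_s0 : ∃ C : ℝ, 0 ≤ C ∧ ∀ v, ‖f.s0 v‖ ≤ C := by
  classical
  obtain ⟨C, hC⟩ := f.bound
  refine ⟨|C|, abs_nonneg _, fun v => ?_⟩
  unfold Fibration.s0
  split_ifs with hv
  · rw [norm_zero]; exact abs_nonneg _
  · have hn0 : (0 : ℝ) < nm v := by exact_mod_cast nm_pos v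
    rw [f.star_eq, norm_mul, norm_inv, norm_pow, Complex.norm_natCast]
    calc ((nm v : ℝ) ^ f.m)⁻¹ * ‖(∑ y ∈ (f.fin v).elems, f.a v y) - (nm v : ℂ) ^ f.m * f.aB v‖
        ≤ ((nm v : ℝ) ^ f.m)⁻¹ * (|C| * (nm v : ℝ) ^ f.m) := by
          refine mul_le_mul_of_nonneg_left ((hC v hv).trans ?_) (by positivity)
          exact mul_le_mul_of_nonneg_right (le_abs_self C) (by positivity)
      _ = |C| := by field_simp

/-- the trace formula at `p` -/
lemma Fibration.e0_add : ∃ D : ℝ, 0 ≤ D ∧ ∀ p, p ∉ f.S ∪ f.R.image below →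
    ‖f.e0 p + LinearMap.trace ℂ W (f.ρ (f.frob p))‖ ≤ D * ((p : ℕ) : ℝ) ^ (-(1 / 2 : ℝ)) := by
  classical
  obtain ⟨D, hD⟩ := f.trace
  refine ⟨|D|, abs_nonneg _, fun p hp => ?_⟩
  rw [Finset.mem_union, not_or, Finset.mem_image, not_exists] at hp
  obtain ⟨hpS, hpR⟩ := hp
  have hp0 : (0 : ℝ) < (p : ℕ) := by exact_mod_cast p.prop.pos
  have hpc : ((p : ℕ) : ℂ) ≠ 0 := by exact_mod_cast p.prop.ne_zero
  have h3 := hD p hpS
  rw [finsum_nm] at h3
  have h4 : f.e0 p = (((p : ℕ) : ℂ) ^ f.m)⁻¹ *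
      (∑ v : {v : HeightOneSpectrum (𝓞 k) // below v = p},
        if deg v.1 = 1 then ((∑ y ∈ (f.fin v.1).elems, f.a v.1 y) -
          ((p : ℕ) : ℂ) ^ f.m * f.aB v.1) else 0) := by
    unfold Fibration.e0
    rw [Finset.mul_sum]
    refine Finset.sum_congr rfl fun v _ => ?_
    split_ifs with hd
    · have hnm : nm v.1 = (p : ℕ) := (nm_eq_prime_iff p v.1).mpr ⟨v.2, hd⟩
      have hv : v.1 ∉ f.R := fun h => hpR v.1 ⟨h, v.2⟩
      unfold Fibration.s0
      rw [if_neg hv, f.star_eq, hnm]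
    · ring
  rw [h4]
  set u := ∑ v : {v : HeightOneSpectrum (𝓞 k) // below v = p},
        (if deg v.1 = 1 then ((∑ y ∈ (f.fin v.1).elems, f.a v.1 y) -
          ((p : ℕ) : ℂ) ^ f.m * f.aB v.1) else 0) with hu
  set t := LinearMap.trace ℂ W (f.ρ (f.frob p)) with ht
  have h5 : (((p : ℕ) : ℂ) ^ f.m)⁻¹ * u + t =
      (((p : ℕ) : ℂ) ^ f.m)⁻¹ * (u + ((p : ℕ) : ℂ) ^ f.m * t) := by
    rw [mul_add, inv_mul_cancel_left₀ (pow_ne_zero _ hpc)]
  rw [h5, norm_mul, norm_inv, norm_pow, Complex.norm_natCast]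
  calc (((p : ℕ) : ℝ) ^ f.m)⁻¹ * ‖u + ((p : ℕ) : ℂ) ^ f.m * t‖
      ≤ (((p : ℕ) : ℝ) ^ f.m)⁻¹ * (|D| * ((p : ℕ) : ℝ) ^ ((f.m : ℝ) - 1 / 2)) := by
        refine mul_le_mul_of_nonneg_left (h3.trans ?_) (by positivity)
        exact mul_le_mul_of_nonneg_right (le_abs_self D) (by positivity)
    _ = |D| * ((p : ℕ) : ℝ) ^ (-(1 / 2 : ℝ)) := by
        rw [← Real.rpow_natCast, ← Real.rpow_neg hp0.le, mul_comm, mul_assoc,
          ← Real.rpow_add hp0]
        congr 2
        ring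

lemma Fibration.Sigma_eq {T : ℝ} (hT : 0 ≤ T) :
    f.Sigma T = ∑ v ∈ VU k ⌊T⌋₊, f.s0 v * (Real.log (nm v) : ℝ) := by
  classical
  unfold Fibration.Sigma
  set U : Finset (HeightOneSpectrum (𝓞 k)) := (VU k ⌊T⌋₊).filter (fun v => v ∉ f.R) with hU
  have hmem : ∀ v : HeightOneSpectrum (𝓞 k), (v ∉ f.R ∧ (nm v : ℝ) ≤ T) ↔
      v ∈ (U : Set (HeightOneSpectrum (𝓞 k))) := by
    intro v
    rw [hU, Finset.coe_filter]
    simp only [Set.mem_ofPred_eq, mem_VU]
    rw [Nat.le_floor_iff hT]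
    exact and_comm
  have h1 : (∑ᶠ (v : HeightOneSpectrum (𝓞 k)) (_ : v ∉ f.R ∧ (nm v : ℝ) ≤ T),
      f.star v * (Real.log (nm v) : ℝ)) =
      ∑ᶠ (v : HeightOneSpectrum (𝓞 k)) (_ : v ∈ (U : Set (HeightOneSpectrum (𝓞 k)))),
        f.star v * (Real.log (nm v) : ℝ) := by
    refine finsum_congr fun v => ?_
    rw [propext (hmem v)]
  rw [h1, finsum_mem_coe_finset, hU, Finset.sum_filter]
  refine Finset.sum_congr rfl fun v _ => ?_
  unfold Fibration.s0
  by_cases hv : v ∈ f.R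
  · simp [hv]
  · simp [hv]

/-- only the primes of degree one contribute -/
lemma Fibration.main_sum : Tendsto (fun N : ℕ =>
    ((∑ v ∈ VU k N, f.s0 v * (Real.log (nm v) : ℝ)) - PS f.e0 N) / N) atTop (𝓝 0) := by
  classical
  obtain ⟨C, hC0, hC⟩ := f.norm_s0
  refine squeeze_zero_norm (fun N => ?_) (tendsto_aux (C * Module.finrank ℚ k))
  have h1 : (∑ v ∈ VU k N, f.s0 v * (Real.log (nm v) : ℝ)) - PS f.e0 N =
      ∑ v ∈ (VU k N).filter (fun v => deg v ≠ 1), f.s0 v * (Real.log (nm v) : ℝ) := by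
    rw [← Finset.sum_filter_add_sum_filter_not (VU k N) (fun v => deg v = 1), sum_deg_one]
    have h2 : PS f.e0 N = ∑ p ∈ PU N, ∑ v : {v : HeightOneSpectrum (𝓞 k) // below v = p},
        if deg v.1 = 1 then f.s0 v.1 * (Real.log (nm v.1) : ℝ) else 0 := by
      unfold PS
      refine Finset.sum_congr rfl fun p _ => ?_
      unfold Fibration.e0
      rw [Finset.sum_mul]
      refine Finset.sum_congr rfl fun v _ => ?_
      split_ifs with hd
      · rw [(nm_eq_prime_iff p v.1).mpr ⟨v.2, hd⟩]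
      · rw [zero_mul]
    rw [h2]
    ring
  rw [h1, norm_div, Complex.norm_natCast]
  refine div_le_div_of_nonneg_right ?_ (Nat.cast_nonneg _)
  refine (norm_sum_le _ _).trans ?_
  have h3 : ∀ v ∈ (VU k N).filter (fun v => deg v ≠ 1),
      ‖f.s0 v * (Real.log (nm v) : ℝ)‖ ≤ C * Real.log N := by
    intro v hv
    rw [Finset.mem_filter, mem_VU] at hv
    have hl := log_nonneg_nat (nm v)
    rw [norm_mul, Complex.norm_real, Real.norm_eq_abs, abs_of_nonneg hl]
    refine mul_le_mul (hC v) ?_ hl hC0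
    exact Real.log_le_log (by exact_mod_cast nm_pos v) (by exact_mod_cast hv.1)
  refine (Finset.sum_le_sum h3).trans ?_
  rw [Finset.sum_const, nsmul_eq_mul]
  have hl := log_nonneg_nat N
  calc (((VU k N).filter (fun v => deg v ≠ 1)).card : ℝ) * (C * Real.log N)
      ≤ (Module.finrank ℚ k * (Real.sqrt N + 1)) * (C * Real.log N) :=
        mul_le_mul_of_nonneg_right (card_deg_two N) (by positivity)
    _ = _ := by ring

/-- **Reduction to `W`.** -/
theorem Fibration.hasMean_iff (c : ℂ) :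
    HasMean f.Sigma (-c) ↔
      HasMean (primeSum f.S fun p => LinearMap.trace ℂ W (f.ρ (f.frob p))) c := by
  classical
  rw [hasMean_primeSum]
  have h1 : HasMean f.Sigma (-c) ↔ Tendsto (fun N : ℕ =>
      (∑ v ∈ VU k N, f.s0 v * (Real.log (nm v) : ℝ)) / N) atTop (𝓝 (-c)) := by
    unfold HasMean
    rw [← floor_iff (fun N => ∑ v ∈ VU k N, f.s0 v * (Real.log (nm v) : ℝ))]
    refine tendsto_congr' ?_
    filter_upwards [eventually_ge_atTop (0 : ℝ)] with T hT
    rw [f.Sigma_eq hT]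
  have h2 : Tendsto (fun N : ℕ =>
      (∑ v ∈ VU k N, f.s0 v * (Real.log (nm v) : ℝ)) / N) atTop (𝓝 (-c)) ↔ HT f.e0 (-c) := by
    constructor
    · intro h
      have h3 := h.sub f.main_sum
      rw [sub_zero] at h3
      refine h3.congr fun N => ?_
      rw [← sub_div]
      congr 1
      ring
    · intro h
      have h3 := Tendsto.add h f.main_sum
      rw [add_zero] at h3
      refine h3.congr fun N => ?_
      rw [← add_div]
      congr 1
      ring
  have h3 : HT (fun p => f.e0 p + LinearMap.trace ℂ W (f.ρ (f.frob p))) 0 := by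
    obtain ⟨D, hD0, hD⟩ := f.e0_add
    exact HT.of_small _ hD0 hD
  rw [h1, h2]
  constructor
  · intro h
    have h4 := h3.add (h.smul (-1))
    rw [zero_add, neg_mul_neg, one_mul] at h4
    convert h4 using 2
    ring
  · intro h
    have h4 := h3.add (h.smul (-1))
    rw [zero_add, neg_one_mul] at h4
    convert h4 using 2
    ring

end

end Pool.Agent.N184.NG
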