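import Pool.Agent.N184.NG.Bnd

/-!
# The statement
-/

set_option autoImplicit false
set_option linter.unusedSectionVars false

open Filter Topology NumberField IsDedekindDomain Module
open Pool.Agent.H921R2.TatePole Pool.Agent.N184.QP

namespace Pool.Agent.N184.NG

section
variable {k : Type} [Field k] [NumberField k] {W : Type} [AddCommGroup W] [Module ℂ W]

/-- `(∑_{p ≤ T} tr(Frob_p | W) log p) / T` tends to `c`. -/
def Fibration.MeanW (f : Fibration k W) (c : ℂ) : Prop :=
  HasMean (primeSum f.S fun p => LinearMap.trace ℂ W (f.ρ (f.frob p))) c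

variable [Module ℚ W]

/-- The dimension over `ℚ` of the space of the invariant classes: the rank of `P_X(K) / τB(k)`. -/
noncomputable def rk {ρ : Representation ℂ GalQ W} (C : CycleSpace ρ) : ℕ := finrank ℚ C.A

/-- The dimension of the transcendental part `W_tr`. -/
noncomputable def dimTr {ρ : Representation ℂ GalQ W} (C : CycleSpace ρ) : ℕ :=
  finrank ℂ (W ⧸ algPart C)

/-- The trace of the Frobenius element at `p` on the transcendental part `W_tr`. -/
noncomputable def Fibration.tr (f : Fibration k W) (C : CycleSpace f.ρ) (p : Nat.Primes) : ℂ :=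
  LinearMap.trace ℂ (W ⧸ algPart C) (trPart C (f.frob p))

/-- `(∑_{p ≤ T} tr(Frob_p | W_tr) log p) / T` tends to `c`. -/
def Fibration.MeanTr (f : Fibration k W) (C : CycleSpace f.ρ) (c : ℂ) : Prop :=
  HasMean (primeSum f.S (f.tr C)) c

/-- The limit statement of Q1 for `f`: `Σ_T(𝔄*) / T` tends to `- rank(P_X(K) / τB(k))`. -/
def Fibration.Limit (f : Fibration k W) (C : CycleSpace f.ρ) : Prop :=
  HasMean f.Sigma (-(rk C : ℂ))

/-- The distance of `Σ_T(𝔄*) / T` from `- rank(P_X(K) / τB(k))` is at most `dim W_tr + ε` for large `T`. -/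
def Fibration.Close (f : Fibration k W) (C : CycleSpace f.ρ) : Prop :=
  ∀ ε : ℝ, 0 < ε → ∀ᶠ T : ℝ in atTop, ‖f.Sigma T / T + (rk C : ℂ)‖ ≤ dimTr C + ε

/-- The classes of `W₀` span `W` over `ℂ`, or `W` has no nonzero class of type `(a, -a)`, `a > 0`. -/
def NoTr {ρ : Representation ℂ GalQ W} (C : CycleSpace ρ) : Prop :=
  algPart C = ⊤ ∨ ∃ D : HodgeSpace C, ∀ a, 0 < a → D.h a = ⊥

end

/-- Two fibrations have the same traces on the transcendental parts outside of the finite set `T`. -/
def SameTr {k : Type} [Field k] [NumberField k] {W : Type} [AddCommGroup W]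
    [Module ℂ W] [Module ℚ W] (f : Fibration k W) (C : CycleSpace f.ρ)
    {k' : Type} [Field k'] [NumberField k'] {W' : Type} [AddCommGroup W'] [Module ℂ W']
    [Module ℚ W'] (f' : Fibration k' W') (C' : CycleSpace f'.ρ)
    (T : Finset Nat.Primes) : Prop :=
  ∀ p, p ∉ T → p ∉ f.S → p ∉ f'.S → f.tr C p = f'.tr C' p

end Pool.Agent.N184.NG
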