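import Pool.Agent.N184.NG.Defs
import Pool.Agent.N184.QP.Nag
import Pool.Agent.H332R2.PIT.Main
import Pool.Agent.H484R2.Pit

/-!
# Averages over the prime numbers with logarithmic weights
-/

set_option autoImplicit false
set_option linter.unusedSectionVars false

open Filter Topology NumberField IsDedekindDomain Module
open Pool.Agent.H921R2.TatePole Pool.Agent.N184.QP Pool.Agent.W401.Cheb

namespace Pool.Agent.N184.NG

/-- the prime numbers up to `N` -/
def PU (N : ℕ) : Finset Nat.Primes := (Finset.range (N + 1)).subtype Nat.Prime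

lemma mem_PU {N : ℕ} {p : Nat.Primes} : p ∈ PU N ↔ (p : ℕ) ≤ N := by
  have h : p ∈ PU N ↔ (p : ℕ) ∈ Finset.range (N + 1) := Finset.mem_subtype
  rw [h, Finset.mem_range, Nat.lt_succ_iff]

lemma sum_PU {M : Type} [AddCommMonoid M] (f : ℕ → M) (N : ℕ) :
    ∑ p ∈ PU N, f (p : ℕ) = ∑ n ∈ (Finset.range (N + 1)).filter Nat.Prime, f n :=
  Finset.sum_subtype_eq_sum_filter f

/-- weighted sums over the prime numbers -/
noncomputable def PS (c : Nat.Primes → ℂ) (N : ℕ) : ℂ :=
  ∑ p ∈ PU N, c p * (Real.log ((p : ℕ) : ℝ) : ℝ)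

/-- the averages with logarithmic weights tend to `m` -/
def HT (a : Nat.Primes → ℂ) (m : ℂ) : Prop := Tendsto (fun N : ℕ => PS a N / N) atTop (𝓝 m)

lemma HT.zero : HT (fun _ => 0) 0 := by
  unfold HT PS
  simp

lemma HT.add {a b : Nat.Primes → ℂ} {m n : ℂ} (ha : HT a m) (hb : HT b n) :
    HT (fun p => a p + b p) (m + n) := by
  unfold HT at *
  refine (Tendsto.add ha hb).congr fun N => ?_
  unfold PS
  rw [← add_div, ← Finset.sum_add_distrib]
  congr 1
  refine Finset.sum_congr rfl fun p _ => ?_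
  ring

lemma HT.smul {a : Nat.Primes → ℂ} {m : ℂ} (ha : HT a m) (r : ℂ) :
    HT (fun p => r * a p) (r * m) := by
  unfold HT at *
  refine (Tendsto.const_mul r ha).congr fun N => ?_
  unfold PS
  rw [← mul_div_assoc, Finset.mul_sum]
  congr 1
  refine Finset.sum_congr rfl fun p _ => ?_
  ring

/-- the absolute values of the terms -/
noncomputable def nx (d : Nat.Primes → ℂ) (n : ℕ) : ℝ :=
  open Classical in
  if h : n.Prime then ‖d ⟨n, h⟩ * (Real.log (n : ℝ) : ℝ)‖ else 0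

lemma nx_nonneg (d : Nat.Primes → ℂ) (n : ℕ) : 0 ≤ nx d n := by
  unfold nx
  split_ifs
  · exact norm_nonneg _
  · exact le_rfl

lemma norm_PS_le (d : Nat.Primes → ℂ) (N : ℕ) : ‖PS d N‖ ≤ ∑ n ∈ Finset.range (N + 1), nx d n := by
  unfold PS
  refine (norm_sum_le _ _).trans ?_
  have h1 : ∀ p : Nat.Primes, ‖d p * (Real.log ((p : ℕ) : ℝ) : ℝ)‖ = nx d (p : ℕ) := by
    intro p
    unfold nx
    rw [dif_pos p.prop]
    rfl
  rw [Finset.sum_congr rfl fun p _ => h1 p, sum_PU]
  exact Finset.sum_le_sum_of_subset_of_nonneg (Finset.filter_subset _ _) fun n _ _ => nx_nonneg d n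

lemma HT.of_nx {d : Nat.Primes → ℂ} (h : Tendsto (nx d) atTop (𝓝 0)) : HT d 0 := by
  unfold HT
  have h1 := h.cesaro
  have h2 : Tendsto (fun N : ℕ => nx d N * ((N : ℝ))⁻¹) atTop (𝓝 0) := by
    have := h.mul (tendsto_inv_atTop_nhds_zero_nat (𝕜 := ℝ))
    simpa using this
  have h3 := h1.add h2
  rw [add_zero] at h3
  refine squeeze_zero_norm (fun N => ?_) h3
  rw [norm_div, Complex.norm_natCast]
  have h4 := norm_PS_le d N
  rw [Finset.sum_range_succ] at h4
  calc ‖PS d N‖ / N ≤ (∑ n ∈ Finset.range N, nx d n + nx d N) / N :=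
        div_le_div_of_nonneg_right h4 (Nat.cast_nonneg _)
    _ = _ := by ring

/-- small terms -/
lemma HT.of_small {d : Nat.Primes → ℂ} (S : Finset Nat.Primes) {D : ℝ} (hD : 0 ≤ D)
    (h : ∀ p, p ∉ S → ‖d p‖ ≤ D * ((p : ℕ) : ℝ) ^ (-(1 / 2 : ℝ))) : HT d 0 := by
  classical
  refine HT.of_nx ?_
  have hlim : Tendsto (fun n : ℕ => D * 4 * (n : ℝ) ^ (-(1 / 4 : ℝ))) atTop (𝓝 0) := by
    have h1 : Tendsto (fun x : ℝ => x ^ (-(1 / 4 : ℝ))) atTop (𝓝 0) :=
      tendsto_rpow_neg_atTop (by norm_num)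
    have h2 := (h1.comp tendsto_natCast_atTop_atTop).const_mul (D * 4)
    simpa using h2
  refine squeeze_zero' (Eventually.of_forall (nx_nonneg d)) ?_ hlim
  have hS : ∀ᶠ n : ℕ in atTop, ∀ p ∈ S, (p : ℕ) < n := by
    filter_upwards [eventually_gt_atTop (S.sup fun p => (p : ℕ))] with n hn p hp
    exact (Finset.le_sup (f := fun p : Nat.Primes => (p : ℕ)) hp).trans_lt hn
  filter_upwards [hS, eventually_ge_atTop 1] with n hn hn1
  unfold nx
  split_ifs with hp
  · have hpS : (⟨n, hp⟩ : Nat.Primes) ∉ S := fun h1 => lt_irrefl _ (hn _ h1)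
    have h1 := h _ hpS
    have h1' : ‖d ⟨n, hp⟩‖ ≤ D * (n : ℝ) ^ (-(1 / 2 : ℝ)) := h1
    have hn0 : (0 : ℝ) < n := by exact_mod_cast hn1
    have hl : 0 ≤ Real.log (n : ℝ) := log_nonneg_nat n
    have hl2 := Real.log_le_rpow_div hn0.le (show (0 : ℝ) < 1 / 4 by norm_num)
    rw [norm_mul, Complex.norm_real, Real.norm_eq_abs, abs_of_nonneg hl]
    calc ‖d ⟨n, hp⟩‖ * Real.log n ≤ (D * (n : ℝ) ^ (-(1 / 2 : ℝ))) * ((n : ℝ) ^ (1 / 4 : ℝ) / (1 / 4)) :=
          mul_le_mul h1' hl2 hl (by positivity)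
      _ = D * 4 * ((n : ℝ) ^ (-(1 / 2 : ℝ)) * (n : ℝ) ^ (1 / 4 : ℝ)) := by ring
      _ = _ := by
          rw [← Real.rpow_add hn0]
          norm_num
  · positivity

/-- finitely many values may be changed -/
lemma HT.congr {a b : Nat.Primes → ℂ} {m : ℂ} (ha : HT a m) (S : Finset Nat.Primes)
    (h : ∀ p, p ∉ S → b p = a p) : HT b m := by
  have h0 : HT (fun p => b p - a p) 0 := by
    refine HT.of_small S (D := 0) le_rfl fun p hp => ?_
    rw [h p hp, sub_self, norm_zero, zero_mul]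
  have h2 := ha.add h0
  rw [add_zero] at h2
  convert h2 using 2
  ring

lemma HT.unique {a : Nat.Primes → ℂ} {m n : ℂ} (h : HT a m) (h' : HT a n) : m = n :=
  tendsto_nhds_unique h h'

/-! ### Real parameters -/

lemma floor_iff (F : ℕ → ℂ) (c : ℂ) :
    Tendsto (fun T : ℝ => F ⌊T⌋₊ / T) atTop (𝓝 c) ↔ Tendsto (fun N : ℕ => F N / N) atTop (𝓝 c) := by
  constructor
  · intro h
    have h1 := h.comp tendsto_natCast_atTop_atTop
    refine h1.congr fun N => ?_
    simp only [Function.comp_apply, Nat.floor_natCast]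
    push_cast
    rfl
  · intro h
    have h1 := h.comp (tendsto_nat_floor_atTop (α := ℝ))
    have h2 : Tendsto (fun T : ℝ => ((((⌊T⌋₊ : ℕ) : ℝ) / T : ℝ) : ℂ)) atTop (𝓝 ((1 : ℝ) : ℂ)) :=
      (Complex.continuous_ofReal.tendsto _).comp (tendsto_nat_floor_div_atTop (R := ℝ))
    have h3 := h1.mul h2
    rw [Complex.ofReal_one, mul_one] at h3
    refine h3.congr' ?_
    filter_upwards [eventually_ge_atTop (1 : ℝ)] with T hT
    have hf : 0 < ⌊T⌋₊ := Nat.floor_pos.mpr hT
    have hf' : ((⌊T⌋₊ : ℕ) : ℂ) ≠ 0 := by exact_mod_cast hf.ne'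
    have hT' : (T : ℂ) ≠ 0 := by
      have : T ≠ 0 := by linarith
      exact_mod_cast this
    simp only [Function.comp_apply]
    push_cast
    field_simp

lemma primeSum_eq (S : Finset Nat.Primes) (c : Nat.Primes → ℂ) {T : ℝ} (hT : 0 ≤ T) :
    primeSum S c T = PS (fun p => open Classical in if p ∈ S then 0 else c p) ⌊T⌋₊ := by
  classical
  unfold primeSum PS
  set U : Finset Nat.Primes := (PU ⌊T⌋₊).filter (fun p => p ∉ S) with hU
  have hmem : ∀ p : Nat.Primes, (p ∉ S ∧ ((p : ℕ) : ℝ) ≤ T) ↔ p ∈ (U : Set Nat.Primes) := by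
    intro p
    rw [hU, Finset.coe_filter]
    simp only [Set.mem_ofPred_eq, mem_PU]
    rw [Nat.le_floor_iff hT]
    exact and_comm
  have h1 : (∑ᶠ (p : Nat.Primes) (_ : p ∉ S ∧ ((p : ℕ) : ℝ) ≤ T),
      c p * (Real.log ((p : ℕ) : ℝ) : ℝ)) =
      ∑ᶠ (p : Nat.Primes) (_ : p ∈ (U : Set Nat.Primes)), c p * (Real.log ((p : ℕ) : ℝ) : ℝ) := by
    refine finsum_congr fun p => ?_
    rw [propext (hmem p)]
  rw [h1, finsum_mem_coe_finset, hU, Finset.sum_filter]
  refine Finset.sum_congr rfl fun p _ => ?_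
  by_cases hp : p ∈ S
  · simp [hp]
  · simp [hp]

lemma hasMean_primeSum (S : Finset Nat.Primes) (c : Nat.Primes → ℂ) (m : ℂ) :
    HasMean (primeSum S c) m ↔ HT c m := by
  classical
  have h1 : HasMean (primeSum S c) m ↔ HT (fun p => if p ∈ S then 0 else c p) m := by
    unfold HasMean HT
    rw [← floor_iff]
    refine tendsto_congr' ?_
    filter_upwards [eventually_ge_atTop (0 : ℝ)] with T hT
    rw [primeSum_eq S c hT]
  rw [h1]
  constructor
  · intro h
    exact h.congr S fun p hp => by rw [if_neg hp]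
  · intro h
    exact h.congr S fun p hp => by rw [if_neg hp]

/-! ### Class functions -/

section
variable {L : Type} [Field L] [NumberField L] [IsGalois ℚ L]

lemma ht_hc (E : Type) [Field E] [NumberField E] :
    HT (fun p => (hc (𝓞 E) p : ℂ)) 1 := by
  unfold HT
  have h1 := H332.PIT.TT_tendsto (K := E) (Pool.Agent.H484R2.continuation E)
  have h2 := (Complex.continuous_ofReal.tendsto _).comp h1
  rw [Complex.ofReal_one] at h2
  refine h2.congr fun N => ?_
  simp only [Function.comp_apply]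
  rw [Complex.ofReal_div, Complex.ofReal_natCast]
  congr 1
  unfold H332.PIT.TT PS
  rw [← sum_PU (fun p => (Nat.card (𝓞 E →+* ZMod p) : ℝ) * Real.log p)]
  push_cast
  refine Finset.sum_congr rfl fun p _ => ?_
  rfl

/-- permutation characters -/
lemma ht_perm (τ : Nat.Primes → Gal(L/ℚ)) (S : Finset Nat.Primes)
    (hτ : ∀ p, p ∉ S → IsFrobIn p (τ p)) (H : Subgroup Gal(L/ℚ)) :
    HT (fun p => ((perm H (τ p) : ℚ) : ℂ)) 1 := by
  classical
  obtain ⟨D, hD, htor⟩ := W54.ChTor.main L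
  set E := IntermediateField.fixedField H with hE
  have h1 : HT (fun p : Nat.Primes => (hc (𝓞 E) p : ℂ)) 1 := ht_hc E
  have hfin : {p : Nat.Primes | (p : ℕ) ∣ D}.Finite := by
    refine Set.Finite.of_injOn (f := fun p : Nat.Primes => (p : ℕ)) (t := (D.divisors : Set ℕ))
      (fun p hp => ?_) (fun p _ q _ hpq => Subtype.ext hpq) (Finset.finite_toSet _)
    exact Finset.mem_coe.mpr (Nat.mem_divisors.mpr ⟨hp, hD.ne'⟩)
  refine h1.congr (S ∪ hfin.toFinset) fun p hp => ?_
  rw [Finset.mem_union, not_or, Set.Finite.mem_toFinset] at hp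
  obtain ⟨hpS, hpD⟩ := hp
  have hpD' : ¬ (p : ℕ) ∣ D := hpD
  have : Fact (p : ℕ).Prime := ⟨p.prop⟩
  obtain ⟨φ, hφ⟩ := hτ p hpS
  have h2 := card_fixed (htor (p : ℕ) hpD') hφ H
  unfold perm
  rw [← h2]
  have h3 : ((Nat.card H : ℕ) : ℚ) ≠ 0 := by exact_mod_cast Nat.card_pos.ne'
  push_cast
  rw [mul_div_cancel_left₀ _ (by exact_mod_cast h3)]
  rfl

/-- **Rational class functions.** -/
theorem ht_class [Fintype Gal(L/ℚ)] (τ : Nat.Primes → Gal(L/ℚ)) (S : Finset Nat.Primes)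
    (hτ : ∀ p, p ∉ S → IsFrobIn p (τ p)) (f : Gal(L/ℚ) → ℚ)
    (hf : ∀ g h, Subgroup.zpowers g = Subgroup.zpowers h → f g = f h)
    (hc : ∀ g σ, f (σ⁻¹ * g * σ) = f g) :
    HT (fun p => ((f (τ p) : ℚ) : ℂ)) ((mean f : ℚ) : ℂ) := by
  classical
  have h := exists_coeff f hf hc
  clear hf hc
  induction h using Submodule.span_induction with
  | mem f hf =>
    obtain ⟨H, rfl⟩ := hf
    have h1 : mean (perm H) = 1 := by
      unfold mean
      have h2 := sum_perm H
      rw [Nat.card_eq_fintype_card] at h2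
      rw [h2, div_self]
      exact_mod_cast Fintype.card_ne_zero
    rw [h1]
    simpa using ht_perm τ S hτ H
  | zero =>
    have h1 : mean (0 : Gal(L/ℚ) → ℚ) = 0 := by unfold mean; simp
    rw [h1]
    simpa using HT.zero
  | add f g _ _ hf hg =>
    have h1 : mean (f + g) = mean f + mean g := by
      unfold mean
      simp only [Pi.add_apply]
      rw [Finset.sum_add_distrib, add_div]
    rw [h1]
    have := hf.add hg
    simpa using this
  | smul r f _ hf =>
    have h1 : mean (r • f) = r * mean f := by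
      unfold mean
      simp only [Pi.smul_apply, smul_eq_mul]
      rw [← Finset.mul_sum, mul_div_assoc]
    rw [h1]
    have := hf.smul (r : ℂ)
    simpa using this

end

end Pool.Agent.N184.NG
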